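import Mathlib
import Pool.Agent.Helper38.KZ7

open MvPolynomial Pool.Agent.Helper38

namespace Pool.Agent.Results.MP_50c274_ag.DynkinPositivity

/-- Positivity of the quiver coefficients of Dynkin type. Let `Q` be a Dynkin quiver, `e` a
dimension vector and `φ` a representation. The first part says that the K-polynomial of the orbit
closure of `φ` is a well defined nonzero Laurent polynomial: its weight spaces are finite
dimensional, it has finitely many terms, and some homogeneous part of it is nonzero. The second part
says that the class of the orbit closure (the lowest nonvanishing part of the K-polynomial) is
obtained by the operation `Δ`, with alphabets of sizes `e i`, from an `f` in which all exponents are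
partitions with at most `e i` nonnegative parts and all coefficients are nonnegative integers. -/
theorem result {V A : Type} [Fintype V] [DecidableEq V] [Fintype A] (tail head : A → V)
    (hQ : IsDynkin tail head) (e : V → ℕ) (φ : Rep tail head e) :
    HasKPolynomial (coordWeight tail head e) (orbitIdeal tail head e φ) ∧
    ∃ f : ((i : V) → Fin (e i) → ℤ) →₀ ℤ,
      PartitionPositive f ∧ (∀ lam ∈ f.support, ∀ i s, 0 ≤ lam i s) ∧
        orbitClass tail head e φ = DeltaOp tail head e f :=
  positivity_strict (dynkin_good hQ).1 (dynkin_good hQ).2 e φ

end Pool.Agent.Results.MP_50c274_ag.DynkinPositivity
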